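import Pool.Agent.W495.DC.Ratio

/-!
# Ratios of successive critical values for potentially CM motives

A motive over `ℚ` is potentially CM if it belongs to the tensor category generated by the Artin
motives and by the abelian varieties over `ℚ` that have complex multiplication over `ℚ̄`. Let
`M = Res_{F/ℚ} M₀` be such a motive, for a motive `M₀` of rank `n` over a totally imaginary number
field `F` of degree `d`, with coefficients in any number field `E` and without middle Hodge type. If
`m` and `m + 1` are critical and none of them is the central point `(w + 1)/2`, then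
`L(m, M) / L(m + 1, M)` is `(i ^ (d / 2) Δ_F) ^ n` up to a factor in `E^×` (completed L-functions).
-/

namespace Pool.Agent.Results.MP_c63a07_nt.PotentiallyCM

open Pool.Agent.W495.DC

/-- The formula for the ratio of the completed L-values `Linf m * L(m)` and
`Linf (m + 1) * L(m + 1)` of a potentially CM motive `M = Res_{F/ℚ} M₀`; both values are not zero. -/
theorem result (T : Motives) (hT : IsMotives T) (hB : HasBrauer T) (E : Type) [Field E]
    [NumberField E] (M : T.Mot E) (hM : T.IsPotCM M) (hne : (T.inv M).types.Nonempty)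
    (h0 : (T.inv M).NoMiddle) (n d : ℕ) (Δ : ℂ) (Linf : ℤ → ℂ)
    (hR : IsRes (T.inv M) n d Δ Linf) (m : ℤ) (hm : (T.inv M).IsCritical m)
    (hm' : (T.inv M).IsCritical (m + 1)) (hc : 2 * m ≠ (T.inv M).w + 1)
    (hc' : 2 * (m + 1) ≠ (T.inv M).w + 1) :
    (∀ σ : E →+* ℂ, Linf (m + 1) * (T.inv M).L (m + 1) σ ≠ 0) ∧
    ∃ e : E, e ≠ 0 ∧ ∀ σ : E →+* ℂ, Linf m * (T.inv M).L m σ =
      σ e * (Complex.I ^ (d / 2) * Δ) ^ n * (Linf (m + 1) * (T.inv M).L (m + 1) σ) :=
  ⟨fun σ => mul_ne_zero (hR.arch m hm hm').1 (L_ne_zero hT hB M hM hne h0 (m + 1) hm' hc' σ),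
    ratio hT hB M hM hne h0 hR m hm hm' hc hc'⟩

end Pool.Agent.Results.MP_c63a07_nt.PotentiallyCM
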